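import Pool.Agent.H90.NC.ArmGlue

/-!
# Stability of the one-arm probability in the near-critical window
-/

open MeasureTheory ProbabilityTheory unitInterval

namespace Pool.Agent.H61.NC

open Pool.Agent.H89.Perc

theorem pivot_nonneg_of {q : I} {A : Set Config} (iA : Incr A) (e : Edge) : 0 ≤ pivot q A e := by
  unfold pivot
  refine sub_nonneg.2 (Pr_mono fun ω hω => iA _ _ (fun x hx => ?_) hω)
  by_cases hxe : x = e
  · subst hxe; simp
  · rw [Function.update_of_ne hxe] at hx ⊢; exact hx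

/-- The derivative of the probability of `W0` is bounded by this probability times a sum of four-arm
probabilities. -/
theorem deriv_W0 : ∀ c : ℝ, 0 < c → ∃ C : ℝ, 0 < C ∧
    ∀ (N : ℕ) (q : I) (S : ℝ), 64 ≤ N → 1 / 4 ≤ (q : ℝ) → RSWreg c N q → 1 ≤ S →
      ∑ t ∈ Finset.Icc 1 N, (t : ℝ) * a4 q t ≤ S → (N : ℝ) ^ 2 * a4 q (N / 64) ≤ S →
      ∑ f ∈ tEdges N, pivot q (W0 N) f ≤ C * Pr q (W0 N) * S := by
  classical
  intro c hc
  obtain ⟨E, hE, hext⟩ := arm_ext_reg c hc 64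
  refine ⟨1800 + 1920 * (E * c⁻¹ ^ 4) + 2 * (E * c⁻¹ ^ 5),
    by positivity, fun N q S hN hq1 hR hS1 hsum hS2 => ?_⟩
  have hNpos : (0 : ℝ) < N := by exact_mod_cast (by omega : 0 < N)
  have hN1 : 1 ≤ N := by omega
  obtain ⟨P, hP⟩ : ∃ P, P = Pr q (W0 N) := ⟨_, rfl⟩
  have hP0 : 0 ≤ P := by rw [hP]; exact Pr_nonneg
  rw [← hP]
  obtain ⟨g, hg⟩ : ∃ g, g = a4 q (N / 64) := ⟨_, rfl⟩
  have hg0 : 0 ≤ g := by rw [hg]; exact a4_nonneg _ _
  rw [← hg] at hS2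
  have hcinv : ∀ (k : ℕ) (x y : ℝ), x * c ^ k ≤ y → x ≤ c⁻¹ ^ k * y := by
    intro k x y h
    rw [inv_pow, ← div_eq_inv_mul, le_div_iff₀ (by positivity)]
    exact h
  -- bound of one term
  have hterm : ∀ f ∈ tEdges N, pivot q (W0 N) f ≤
      (if dist0 N f < 8 then 4 * P else 0) +
      (if 8 ≤ dist0 N f then E * c⁻¹ ^ 4 * P * a4 q (dist0 N f / 8) else 0) +
        E * c⁻¹ ^ 5 * P * g := by
    intro f hf
    have ha := a4_nonneg q (dist0 N f / 8)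
    have hz : 0 ≤ E * c⁻¹ ^ 5 * P * g := by positivity
    by_cases h8 : dist0 N f < 8
    · rw [if_pos h8, if_neg (by omega)]
      have k1 := pivot_W0_small hN1 hq1 f
      rw [← hP] at k1
      linarith
    · rw [if_neg h8, if_pos (by omega)]
      obtain ⟨t, ht⟩ : ∃ t, t = dist0 N f := ⟨_, rfl⟩
      rw [← ht] at ha h8 ⊢
      by_cases hnear : 8 * t < N
      · have k1 := pivot_W0_near q (ρ := t / 8) (ρ' := t / 8) (R := 2 * t - 1) hf (by omega)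
          (by omega) (by omega) (by omega)
        have k2 := armGlue (q := q) hc.le (m := 2 * t) (R := 2 * t - 1) hR (by omega) (by omega)
        have k3 := hext N q (t / 8) (2 * (2 * t)) hR hq1 (by omega) (by omega) (by omega)
        rw [← hP] at k2
        have k4 := hcinv 4 _ _ k2
        have k5 : arm q (t / 8) * Pr q (OutArm N (2 * t - 1)) ≤ E * c⁻¹ ^ 4 * P := by
          calc arm q (t / 8) * Pr q (OutArm N (2 * t - 1))
              ≤ E * arm q (2 * (2 * t)) * Pr q (OutArm N (2 * t - 1)) :=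
                mul_le_mul_of_nonneg_right k3 Pr_nonneg
            _ = E * (arm q (2 * (2 * t)) * Pr q (OutArm N (2 * t - 1))) := by ring
            _ ≤ E * (c⁻¹ ^ 4 * P) := mul_le_mul_of_nonneg_left k4 hE.le
            _ = _ := by ring
        have k6 := mul_le_mul_of_nonneg_left k5 ha
        have k7 : a4 q (t / 8) * (E * c⁻¹ ^ 4 * P) = E * c⁻¹ ^ 4 * P * a4 q (t / 8) := by ring
        linarith
      · have k1 := pivot_W0_far q (ρ := N / 64) (ρ' := N / 64) hf (by omega) (by omega)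
        have k3 := W0_lower (q := q) hc.le (m := (N - 1) / 4) hR (by omega) (by omega) (by omega)
        have k4 := hext N q (N / 64) (2 * ((N - 1) / 4)) hR hq1 (by omega) (by omega) (by omega)
        rw [← hP] at k3
        rw [← hg] at k1
        have k5 := hcinv 5 _ _ k3
        have k6 : arm q (N / 64) ≤ E * c⁻¹ ^ 5 * P := by
          calc arm q (N / 64) ≤ E * arm q (2 * ((N - 1) / 4)) := k4
            _ ≤ E * (c⁻¹ ^ 5 * P) := mul_le_mul_of_nonneg_left k5 hE.le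
            _ = _ := by ring
        have k7 : g * arm q (N / 64) ≤ g * (E * c⁻¹ ^ 5 * P) :=
          mul_le_mul_of_nonneg_left k6 hg0
        have k8 : 0 ≤ E * c⁻¹ ^ 4 * P * a4 q (t / 8) := by positivity
        have k9 : g * (E * c⁻¹ ^ 5 * P) = E * c⁻¹ ^ 5 * P * g := by ring
        linarith
  have p1 : ∑ f ∈ tEdges N, (if dist0 N f < 8 then 4 * P else 0) ≤ 1800 * P := by
    rw [← Finset.sum_filter, Finset.sum_const, nsmul_eq_mul]
    have k := Sum_card_small N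
    nlinarith
  have p2 : ∑ f ∈ tEdges N, (if 8 ≤ dist0 N f then
      E * c⁻¹ ^ 4 * P * a4 q (dist0 N f / 8) else 0) ≤
      1920 * (E * c⁻¹ ^ 4) * P * S := by
    rw [← Finset.sum_filter, ← Finset.mul_sum]
    have k1 := Sum_by_dist N (fun t => a4 q (t / 8)) (fun t => a4_nonneg q _)
    have k2 := Sum_eight N (fun t => a4 q t) (fun t => a4_nonneg q _)
    have k3 : ∑ t ∈ Finset.Icc 8 N, 16 * (t : ℝ) * a4 q (t / 8) =
        16 * ∑ t ∈ Finset.Icc 8 N, (t : ℝ) * a4 q (t / 8) := by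
      rw [Finset.mul_sum]
      exact Finset.sum_congr rfl fun t _ => by ring
    have k4 : ∑ f ∈ (tEdges N).filter (fun f => 8 ≤ dist0 N f), a4 q (dist0 N f / 8) ≤
        1920 * S := by
      refine k1.trans ?_
      rw [k3]
      linarith
    calc E * c⁻¹ ^ 4 * P * ∑ f ∈ (tEdges N).filter (fun f => 8 ≤ dist0 N f), a4 q (dist0 N f / 8)
        ≤ E * c⁻¹ ^ 4 * P * (1920 * S) :=
          mul_le_mul_of_nonneg_left k4 (by positivity)
      _ = _ := by ring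
  have p3 : ∑ _f ∈ tEdges N, E * c⁻¹ ^ 5 * P * g = 2 * (E * c⁻¹ ^ 5) * P * ((N : ℝ) ^ 2 * g) := by
    rw [Finset.sum_const, nsmul_eq_mul, Sum_card_tEdges]
    ring
  have p3' : 2 * (E * c⁻¹ ^ 5) * P * ((N : ℝ) ^ 2 * g) ≤ 2 * (E * c⁻¹ ^ 5) * P * S :=
    mul_le_mul_of_nonneg_left hS2 (by positivity)
  have p4 : 1800 * P ≤ 1800 * P * S := le_mul_of_one_le_right (by positivity) hS1
  calc ∑ f ∈ tEdges N, pivot q (W0 N) f
      ≤ ∑ f ∈ tEdges N, ((if dist0 N f < 8 then 4 * P else 0) +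
        (if 8 ≤ dist0 N f then E * c⁻¹ ^ 4 * P * a4 q (dist0 N f / 8) else 0) +
        E * c⁻¹ ^ 5 * P * g) := Finset.sum_le_sum hterm
    _ = ∑ f ∈ tEdges N, (if dist0 N f < 8 then 4 * P else 0) +
        ∑ f ∈ tEdges N, (if 8 ≤ dist0 N f then
          E * c⁻¹ ^ 4 * P * a4 q (dist0 N f / 8) else 0) +
        ∑ _f ∈ tEdges N, E * c⁻¹ ^ 5 * P * g := by
        rw [Finset.sum_add_distrib, Finset.sum_add_distrib]
    _ ≤ 1800 * P * S + 1920 * (E * c⁻¹ ^ 4) * P * S + 2 * (E * c⁻¹ ^ 5) * P * S := by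
        rw [p3]
        linarith
    _ = _ := by ring

/-- A lower bound shows that the probability of `W0` is positive. -/
theorem W0_pos {c : ℝ} (hc : 0 < c) {q : I} {N : ℕ} (hN : 64 ≤ N) (hq : 1 / 4 ≤ (q : ℝ))
    (hR : RSWreg c N q) : 0 < Pr q (W0 N) := by
  have k1 := W0_lower (q := q) hc.le (m := (N - 1) / 4) hR (by omega) (by omega)
    (by omega)
  have k2 := arm_ge_pow (q := q) hq (le_refl (2 * ((N - 1) / 4)))
  have k3 : 0 < arm q (2 * ((N - 1) / 4)) := lt_of_lt_of_le (by positivity) k2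
  exact lt_of_lt_of_le (by positivity) k1

/-- Stability of the probability of `W0`, abstract form: `F` is a function with values in `[0, 1]`
whose derivative dominates the sums of four-arm probabilities. -/
theorem W0_stability : ∀ c : ℝ, 0 < c → ∃ C : ℝ, 0 < C ∧
    ∀ (N : ℕ) (q₀ q₁ : I) (F F' : ℝ → ℝ), 64 ≤ N → q₀ ≤ q₁ → 1 / 4 ≤ (q₀ : ℝ) →
      (∀ x ∈ Set.Icc (q₀ : ℝ) q₁, HasDerivAt F (F' x) x) →
      (∀ x ∈ Set.Icc (q₀ : ℝ) q₁, 0 ≤ F x ∧ F x ≤ 1) → ∀ B : ℝ, 0 < B →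
      (∀ q : I, q₀ ≤ q → q ≤ q₁ → RSWreg c N q ∧ 1 ≤ B * F' q ∧
        ∑ t ∈ Finset.Icc 1 N, (t : ℝ) * a4 q t ≤ B * F' q ∧
        (N : ℝ) ^ 2 * a4 q (N / 64) ≤ B * F' q) →
      Pr q₁ (W0 N) ≤ Real.exp (C * B) * Pr q₀ (W0 N) := by
  intro c hc
  obtain ⟨C, hC, H⟩ := deriv_W0 c hc
  refine ⟨C, hC, fun N q₀ q₁ F F' hN h01 h0 hF hF01 B hB hR => ?_⟩
  have hN1 : 1 ≤ N := by omega
  have hloc0 := localOn_W0 hN1
  have hle : (q₀ : ℝ) ≤ q₁ := h01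
  have hmem : ∀ x ∈ Set.Icc (q₀ : ℝ) q₁, ∃ q : I, (q : ℝ) = x ∧ q₀ ≤ q ∧ q ≤ q₁ ∧
      1 / 4 ≤ (q : ℝ) := by
    intro x hx
    refine ⟨⟨x, q₀.2.1.trans hx.1, hx.2.trans q₁.2.2⟩, rfl, hx.1, hx.2, ?_⟩
    exact h0.trans hx.1
  have key := log_stability (F := F) (F' := F')
    (G := PrR (tEdges N) (W0 N)) (G' := PrR' (tEdges N) (W0 N)) (K := C * B) hle
    (mul_nonneg hC.le hB.le) hF ?_ ?_ ?_ hF01
  · rw [Pr_eq_PrR hloc0, Pr_eq_PrR hloc0]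
    exact key.1
  · intro x hx
    obtain ⟨q, rfl, -⟩ := hmem x hx
    exact hasDerivAt_PrR_eq hloc0 q
  · intro x hx
    obtain ⟨q, rfl, g1, g2, g3⟩ := hmem x hx
    rw [← Pr_eq_PrR hloc0]
    exact W0_pos hc hN g3 (hR q g1 g2).1
  · intro x hx
    obtain ⟨q, rfl, g1, g2, g3⟩ := hmem x hx
    obtain ⟨j1, j2, j3, j4⟩ := hR q g1 g2
    rw [PrR'_eq hloc0, ← Pr_eq_PrR hloc0,
      abs_of_nonneg (Finset.sum_nonneg fun e _ => pivot_nonneg_of (incr_W0 N) e)]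
    refine (H N q _ hN g3 j1 j2 j3 j4).trans (le_of_eq ?_)
    ring

/-- From the stability of `W0` to the stability of the one-arm probability. -/
theorem arm_of_W0 : ∀ c : ℝ, 0 < c → ∃ C : ℝ, 0 < C ∧ ∀ (N : ℕ) (q₀ q₁ : I) (K : ℝ), 0 ≤ K →
    1 / 4 ≤ (q₀ : ℝ) → RSWreg c N q₀ → RSWreg c N q₁ →
    (64 ≤ N → Pr q₁ (W0 N) ≤ K * Pr q₀ (W0 N)) → arm q₁ N ≤ (C * (K + 1)) * arm q₀ N := by
  intro c hc
  obtain ⟨E, hE, hext⟩ := arm_ext_reg c hc 64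
  refine ⟨c⁻¹ ^ 5 * E + 4 ^ 64, by positivity, fun N q₀ q₁ K hK h0 hR0 hR1 H => ?_⟩
  have ha : 0 ≤ arm q₀ N := arm_nonneg
  have e1 : (c⁻¹ ^ 5 * E + 4 ^ 64) * (K + 1) * arm q₀ N =
      c⁻¹ ^ 5 * K * E * arm q₀ N + c⁻¹ ^ 5 * E * arm q₀ N + K * (4 ^ 64 * arm q₀ N) +
        4 ^ 64 * arm q₀ N := by ring
  have e2 : 0 ≤ c⁻¹ ^ 5 * K * E * arm q₀ N := by positivity
  have e3 : 0 ≤ c⁻¹ ^ 5 * E * arm q₀ N := by positivity
  have e4 : 0 ≤ K * (4 ^ 64 * arm q₀ N) := by positivity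
  have e5 : 0 ≤ 4 ^ 64 * arm q₀ N := by positivity
  by_cases hN : N < 64
  · have k1 := arm_ge_pow (q := q₀) h0 hN.le
    have k2 : 1 ≤ 4 ^ 64 * arm q₀ N := by
      calc (1 : ℝ) = 4 ^ 64 * (1 / 4 : ℝ) ^ 64 := by norm_num
        _ ≤ _ := mul_le_mul_of_nonneg_left k1 (by positivity)
    have k3 := arm_le_one (p := q₁) (r := N)
    linarith
  · push Not at hN
    have k1 := W0_lower (q := q₁) hc.le (m := (N - 1) / 4) hR1 (by omega) (by omega) (by omega)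
    have k2 : arm q₁ (2 * ((N - 1) / 4)) ≤ c⁻¹ ^ 5 * Pr q₁ (W0 N) := by
      rw [inv_pow, ← div_eq_inv_mul, le_div_iff₀ (by positivity)]
      exact k1
    have k3 : arm q₁ N ≤ arm q₁ (2 * ((N - 1) / 4)) := arm_antitone (by omega)
    have k4 := H hN
    have k5 : Pr q₀ (W0 N) ≤ arm q₀ ((N - 1) / 2) := W0_upper (by omega)
    have k6 := hext N q₀ ((N - 1) / 2) N hR0 h0 (by omega) (by omega) le_rfl
    have k7 : arm q₁ N ≤ c⁻¹ ^ 5 * K * E * arm q₀ N := by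
      calc arm q₁ N ≤ c⁻¹ ^ 5 * Pr q₁ (W0 N) := k3.trans k2
        _ ≤ c⁻¹ ^ 5 * (K * Pr q₀ (W0 N)) := by gcongr
        _ ≤ c⁻¹ ^ 5 * (K * arm q₀ ((N - 1) / 2)) := by gcongr
        _ ≤ c⁻¹ ^ 5 * (K * (E * arm q₀ N)) := by gcongr
        _ = c⁻¹ ^ 5 * K * E * arm q₀ N := by ring
    linarith

/-- Sum of the bounds for four-arm probabilities. -/
theorem sum_rpow_window (N : ℕ) :
    ∑ t ∈ Finset.Icc 1 N, (t : ℝ) * (t : ℝ) ^ (-(5 / 4) : ℝ) ≤ 4 / 3 * (N : ℝ) ^ (3 / 4 : ℝ) := by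
  have h1 := Sum_rpow (3 / 4) (by norm_num) (by norm_num) N
  have h2 : ∑ t ∈ Finset.Icc 1 N, (t : ℝ) * (t : ℝ) ^ (-(5 / 4) : ℝ) =
      ∑ t ∈ Finset.Icc 1 N, (t : ℝ) ^ ((3 / 4 : ℝ) - 1) := by
    refine Finset.sum_congr rfl fun t ht => ?_
    have ht0 : (0 : ℝ) < t := by exact_mod_cast (Finset.mem_Icc.1 ht).1
    nth_rewrite 1 [← Real.rpow_one (t : ℝ)]
    rw [← Real.rpow_add ht0]
    norm_num
  rw [h2]
  refine h1.trans (le_of_eq ?_)
  ring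

/-- Stability of the one-arm probability in the window `|q₁ - q₀| ≤ N ^ (-3 / 4)`, given the
four-arm bound. -/
theorem arm_stability : ∀ c A : ℝ, 0 < c → 0 < A → ∃ K : ℝ, 0 < K ∧
    ∀ (N : ℕ) (q₀ q₁ : I), q₀ ≤ q₁ → 1 / 4 ≤ (q₀ : ℝ) → (q₁ : ℝ) ≤ 3 / 4 →
      (∀ q : I, q₀ ≤ q → q ≤ q₁ → RSWreg c N q) →
      (∀ q : I, q₀ ≤ q → q ≤ q₁ → ∀ t : ℕ, 1 ≤ t → t ≤ N →
        a4 q t ≤ A * (t : ℝ) ^ (-(5 / 4) : ℝ)) →
      ((q₁ : ℝ) - q₀) * (N : ℝ) ^ (3 / 4 : ℝ) ≤ 1 → arm q₁ N ≤ K * arm q₀ N := by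
  intro c A hc hA
  obtain ⟨C, hC, H⟩ := W0_stability c hc
  obtain ⟨C', hC', H'⟩ := arm_of_W0 c hc
  obtain ⟨B, hB⟩ : ∃ B : ℝ, B = 1 + 4 / 3 * A + A * 128 ^ (5 / 4 : ℝ) := ⟨_, rfl⟩
  have hBpos : 0 < B := by rw [hB]; positivity
  refine ⟨C' * (Real.exp (C * B) + 1), by positivity,
    fun N q₀ q₁ h01 h0 _ hR h4 hwin => ?_⟩
  refine H' N q₀ q₁ (Real.exp (C * B)) (Real.exp_pos _).le h0 (hR q₀ le_rfl h01)
    (hR q₁ h01 le_rfl) fun hN => ?_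
  have hNpos : (0 : ℝ) < N := by exact_mod_cast (by omega : 0 < N)
  have hN1 : (1 : ℝ) ≤ N := by exact_mod_cast (by omega : 1 ≤ N)
  obtain ⟨D, hD⟩ : ∃ D : ℝ, D = (N : ℝ) ^ (3 / 4 : ℝ) := ⟨_, rfl⟩
  have hD1 : 1 ≤ D := by rw [hD]; exact Real.one_le_rpow hN1 (by norm_num)
  rw [← hD] at hwin
  refine H N q₀ q₁ (fun x => (x - q₀) * D) (fun _ => D) hN h01 h0 ?_ ?_ B hBpos ?_
  · intro x _
    have := ((hasDerivAt_id x).sub_const (q₀ : ℝ)).mul_const D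
    simpa using this
  · intro x hx
    refine ⟨mul_nonneg (sub_nonneg.2 hx.1) (by linarith), le_trans ?_ hwin⟩
    exact mul_le_mul_of_nonneg_right (by linarith [hx.2]) (by linarith)
  · intro q hq0 hq1
    have hB1 : B * D = D + 4 / 3 * A * D + A * 128 ^ (5 / 4 : ℝ) * D := by rw [hB]; ring
    have z1 : 0 ≤ 4 / 3 * A * D := by positivity
    have z2 : 0 ≤ A * 128 ^ (5 / 4 : ℝ) * D := by positivity
    refine ⟨hR q hq0 hq1, ?_, ?_, ?_⟩
    · rw [hB1]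
      linarith
    · have k1 : ∑ t ∈ Finset.Icc 1 N, (t : ℝ) * a4 q t ≤
          ∑ t ∈ Finset.Icc 1 N, A * ((t : ℝ) * (t : ℝ) ^ (-(5 / 4) : ℝ)) := by
        refine Finset.sum_le_sum fun t ht => ?_
        rw [Finset.mem_Icc] at ht
        have k2 := mul_le_mul_of_nonneg_left (h4 q hq0 hq1 t ht.1 ht.2) (Nat.cast_nonneg t)
        linarith
      rw [← Finset.mul_sum] at k1
      have k2 := mul_le_mul_of_nonneg_left (sum_rpow_window N) hA.le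
      rw [← hD] at k2
      rw [hB1]
      linarith
    · have k1 := h4 q hq0 hq1 (N / 64) (by omega) (by omega)
      have k2 : ((N / 64 : ℕ) : ℝ) ^ (-(5 / 4) : ℝ) ≤ 128 ^ (5 / 4 : ℝ) * (N : ℝ) ^ (-(5 / 4) : ℝ) := by
        have k3 : (N : ℝ) / 128 ≤ ((N / 64 : ℕ) : ℝ) := by
          rw [div_le_iff₀ (by norm_num)]
          exact_mod_cast (by omega : N ≤ N / 64 * 128)
        have k4 : ((N / 64 : ℕ) : ℝ) ^ (-(5 / 4) : ℝ) ≤ ((N : ℝ) / 128) ^ (-(5 / 4) : ℝ) :=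
          Real.rpow_le_rpow_of_nonpos (by positivity) k3 (by norm_num)
        refine k4.trans (le_of_eq ?_)
        rw [Real.div_rpow hNpos.le (by norm_num), Real.rpow_neg (by norm_num : (0 : ℝ) ≤ 128),
          div_inv_eq_mul, mul_comm]
      have k5 : (N : ℝ) ^ 2 * (N : ℝ) ^ (-(5 / 4) : ℝ) = D := by
        rw [hD, ← Real.rpow_natCast, ← Real.rpow_add hNpos]
        norm_num
      calc (N : ℝ) ^ 2 * a4 q (N / 64)
          ≤ (N : ℝ) ^ 2 * (A * (128 ^ (5 / 4 : ℝ) * (N : ℝ) ^ (-(5 / 4) : ℝ))) := by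
            refine mul_le_mul_of_nonneg_left (k1.trans ?_) (by positivity)
            exact mul_le_mul_of_nonneg_left k2 hA.le
        _ = A * 128 ^ (5 / 4 : ℝ) * ((N : ℝ) ^ 2 * (N : ℝ) ^ (-(5 / 4) : ℝ)) := by ring
        _ = A * 128 ^ (5 / 4 : ℝ) * D := by rw [k5]
        _ ≤ B * D := by
            rw [hB1]
            linarith

/-- Stability of the one-arm probability with the torus interfaces: no window is needed. -/
theorem arm_stability_torus (hGL : GLTorus) (hBL : BlockLow) : ∀ c : ℝ, 0 < c → ∃ K : ℝ, 0 < K ∧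
    ∀ (N : ℕ) (q₀ q₁ : I), q₀ ≤ q₁ → 1 / 4 ≤ (q₀ : ℝ) → (q₁ : ℝ) ≤ 3 / 4 →
      (∀ q : I, q₀ ≤ q → q ≤ q₁ → RSWreg c N q) → arm q₁ N ≤ K * arm q₀ N := by
  intro c hc
  obtain ⟨C, hC, H⟩ := W0_stability c hc
  obtain ⟨C', hC', H'⟩ := arm_of_W0 c hc
  obtain ⟨C3, hC3, h3⟩ := a4_le_sT hGL hBL c hc
  obtain ⟨C4, hC4, h4⟩ := sum_a4 hGL hBL c hc
  obtain ⟨B, hB⟩ : ∃ B : ℝ, B = 4 ^ 24 * C4 + C4 + C3 := ⟨_, rfl⟩
  have hBpos : 0 < B := by rw [hB]; positivity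
  refine ⟨C' * (Real.exp (C * B) + 1), by positivity, fun N q₀ q₁ h01 h0 h1 hR => ?_⟩
  refine H' N q₀ q₁ (Real.exp (C * B)) (Real.exp_pos _).le h0 (hR q₀ le_rfl h01)
    (hR q₁ h01 le_rfl) fun hN => ?_
  have hN1 : 1 ≤ N := by omega
  have hlocW := localOn_wind hN1
  have hle : (q₀ : ℝ) ≤ q₁ := h01
  have hmem : ∀ x ∈ Set.Icc (q₀ : ℝ) q₁, ∃ q : I, (q : ℝ) = x := fun x hx =>
    ⟨⟨x, q₀.2.1.trans hx.1, hx.2.trans q₁.2.2⟩, rfl⟩
  refine H N q₀ q₁ (PrR (tEdges N) (Wind N)) (PrR' (tEdges N) (Wind N)) hN h01 h0 ?_ ?_ B hBpos ?_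
  · intro x hx
    obtain ⟨q, rfl⟩ := hmem x hx
    exact hasDerivAt_PrR_eq hlocW q
  · intro x hx
    obtain ⟨q, rfl⟩ := hmem x hx
    rw [← Pr_eq_PrR hlocW]
    exact ⟨Pr_nonneg, Pr_le_one⟩
  · intro q hq0 hq1
    have hq0' : (q₀ : ℝ) ≤ q := hq0
    have hq1' : (q : ℝ) ≤ q₁ := hq1
    have hreg := hR q hq0 hq1
    have hs := sT_nonneg q N false
    have hs' := sT_nonneg q N true
    have hsum := h4 N q false hN hreg
    have k1 := a4_one q (by linarith) (by linarith)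
    have k2 : a4 q 1 ≤ ∑ t ∈ Finset.Icc 1 N, (t : ℝ) * a4 q t := by
      have k3 := Finset.single_le_sum (f := fun t : ℕ => (t : ℝ) * a4 q t)
        (fun t _ => mul_nonneg (Nat.cast_nonneg t) (a4_nonneg q t))
        (Finset.mem_Icc.2 ⟨le_rfl, hN1⟩ : 1 ∈ Finset.Icc 1 N)
      simpa using k3
    rw [PrR'_eq hlocW, sum_pivot hN1]
    obtain ⟨T, hT⟩ : ∃ T, T = (N : ℝ) ^ 2 * sT q N false := ⟨_, rfl⟩
    rw [← hT] at hsum
    have hT0 : 0 ≤ T := by rw [hT]; positivity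
    have hT1 : T ≤ (N : ℝ) ^ 2 * (sT q N false + sT q N true) := by
      rw [hT]
      exact mul_le_mul_of_nonneg_left (by linarith) (by positivity)
    have hBT : B * T ≤ B * ((N : ℝ) ^ 2 * (sT q N false + sT q N true)) :=
      mul_le_mul_of_nonneg_left hT1 hBpos.le
    have e1 : B * T = 4 ^ 24 * C4 * T + C4 * T + C3 * T := by rw [hB]; ring
    have z1 : 0 ≤ 4 ^ 24 * C4 * T := by positivity
    have z2 : 0 ≤ C4 * T := by positivity
    have z3 : 0 ≤ C3 * T := by positivity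
    refine ⟨hreg, ?_, ?_, ?_⟩
    · have k4 : (1 / 4 : ℝ) ^ 24 ≤ C4 * T := k1.trans (k2.trans hsum)
      have k5 : (1 : ℝ) ≤ 4 ^ 24 * C4 * T := by
        calc (1 : ℝ) = 4 ^ 24 * (1 / 4 : ℝ) ^ 24 := by norm_num
          _ ≤ 4 ^ 24 * (C4 * T) := mul_le_mul_of_nonneg_left k4 (by norm_num)
          _ = _ := by ring
      linarith
    · linarith
    · have k6 := mul_le_mul_of_nonneg_left (h3 N q false hN hreg) (sq_nonneg (N : ℝ))
      have k7 : (N : ℝ) ^ 2 * (C3 * sT q N false) = C3 * T := by rw [hT]; ring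
      linarith

end Pool.Agent.H61.NC
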