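import Pool.Agent.H61.NC.Sum
import Pool.Agent.H61.NC.Calc
import Pool.Agent.H85.Strict.Corr

/-!
# One-arm stability near criticality: definitions

`W0 N` is the event that the cluster of the middle vertex of the torus of side `N` winds around the
torus horizontally.
-/

open MeasureTheory ProbabilityTheory unitInterval

namespace Pool.Agent.H61.NC

open Pool.Agent.H89.Perc

/-- The middle vertex of the torus. -/
def m0 (N : ℕ) : Vert := (mid N, mid N)

/-- The cluster of the middle vertex winds around the torus horizontally. -/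
def W0 (N : ℕ) : Set Config :=
  {ω | ∃ a b : ℤ, a ≠ 0 ∧ Conn (per N ω) Set.univ (m0 N) ((m0 N).1 + a * N, (m0 N).2 + b * N)}

/-- The event `W0` after opening the block of radius `R`. -/
def OutArm (N R : ℕ) : Set Config := {ω | fill (blk N R) true ω ∈ W0 N}

/-- The one-arm event of the middle vertex on the torus. -/
def ArmT (N r : ℕ) : Set Config := {ω | per N ω ∈ Arm (m0 N) r}

/-- Horizontal crossing of a rectangle on the torus. -/
def HT (N : ℕ) (a b c d : ℤ) : Set Config := {ω | HCross (per N ω) a b c d}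

/-- Vertical crossing of a rectangle on the torus. -/
def VT (N : ℕ) (a b c d : ℤ) : Set Config := {ω | VCross (per N ω) a b c d}

theorem incr_fill {A : Set Config} (iA : Incr A) (s : Finset Edge) (b : Bool) :
    Incr {ω | fill s b ω ∈ A} := by
  classical
  intro ω ω' h hω
  refine iA _ _ (fun e he => ?_) hω
  unfold fill at he ⊢
  by_cases hs : e ∈ s
  · simp only [hs, if_true] at he ⊢
    exact he
  · simp only [hs, if_false] at he ⊢
    exact h e he

theorem per_mono {N : ℕ} {ω ω' : Config} (h : ∀ e, ω e = true → ω' e = true) :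
    ∀ e, per N ω e = true → per N ω' e = true := fun e he => h _ he

theorem incr_W0 (N : ℕ) : Incr (W0 N) := by
  rintro ω ω' h ⟨a, b, ha, hc⟩
  exact ⟨a, b, ha, hc.mono le_rfl (per_mono h)⟩

theorem incr_OutArm (N R : ℕ) : Incr (OutArm N R) := incr_fill (incr_W0 N) _ _

theorem incr_ArmT (N r : ℕ) : Incr (ArmT N r) := fun _ _ h hω => incr_arm _ _ _ _ (per_mono h) hω

theorem incr_HT (N : ℕ) (a b c d : ℤ) : Incr (HT N a b c d) :=
  fun _ _ h hω => incr_hcross _ _ _ _ _ _ (per_mono h) hω

theorem incr_VT (N : ℕ) (a b c d : ℤ) : Incr (VT N a b c d) :=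
  fun _ _ h hω => incr_vcross _ _ _ _ _ _ (per_mono h) hω

/-- Two configurations which agree on the torus have the same periodic extension. -/
theorem per_eq_of {N : ℕ} (hN : 1 ≤ N) {ω ω' : Config} (h : ∀ e ∈ tEdges N, ω e = ω' e) :
    per N ω = per N ω' := by
  funext e
  refine h _ ?_
  have hN' : (0 : ℤ) < N := by exact_mod_cast hN
  simp only [tEdges, Finset.mem_product, Finset.mem_Ico, Finset.mem_univ, and_true]
  exact ⟨⟨Int.emod_nonneg _ hN'.ne', Int.emod_lt_of_pos _ hN'⟩,
    ⟨Int.emod_nonneg _ hN'.ne', Int.emod_lt_of_pos _ hN'⟩⟩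

/-- Events of the periodic extension are local on the torus. -/
theorem localOn_per {N : ℕ} (hN : 1 ≤ N) (A : Set Config) :
    LocalOn (tEdges N) {ω | per N ω ∈ A} := by
  intro ω ω' h hω
  have := per_eq_of hN h
  simp only [Set.mem_ofPred_eq] at hω ⊢
  rwa [← this]

theorem localOn_W0 {N : ℕ} (hN : 1 ≤ N) : LocalOn (tEdges N) (W0 N) :=
  localOn_per hN {η | ∃ a b : ℤ, a ≠ 0 ∧
    Conn η Set.univ (m0 N) ((m0 N).1 + a * N, (m0 N).2 + b * N)}

theorem localOn_ArmT {N : ℕ} (hN : 1 ≤ N) (r : ℕ) : LocalOn (tEdges N) (ArmT N r) :=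
  localOn_per hN _

theorem localOn_HT {N : ℕ} (hN : 1 ≤ N) (a b c d : ℤ) : LocalOn (tEdges N) (HT N a b c d) :=
  localOn_per hN {η | HCross η a b c d}

theorem localOn_VT {N : ℕ} (hN : 1 ≤ N) (a b c d : ℤ) : LocalOn (tEdges N) (VT N a b c d) :=
  localOn_per hN {η | VCross η a b c d}

/-- The modified event depends only on the edges outside the block. -/
theorem localOn_fill {s t : Finset Edge} {A : Set Config} (hA : LocalOn t A) (b : Bool) :
    LocalOn (t \ s) {ω | fill s b ω ∈ A} := by
  classical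
  intro ω ω' h hω
  refine hA _ _ (fun e he => ?_) hω
  unfold fill
  by_cases hs : e ∈ s
  · simp only [hs, if_true]
  · simp only [hs, if_false]
    exact h e (Finset.mem_sdiff.2 ⟨he, hs⟩)

theorem localOn_OutArm {N : ℕ} (hN : 1 ≤ N) (R : ℕ) :
    LocalOn (tEdges N \ blk N R) (OutArm N R) := localOn_fill (localOn_W0 hN) true

end Pool.Agent.H61.NC
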