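import Pool.Agent.H90.NC.ArmDefs

/-!
# Open circuits in the box-crossing regime, in the plane and on the torus
-/

open MeasureTheory ProbabilityTheory unitInterval

namespace Pool.Agent.H61.NC

open Pool.Agent.H89.Perc Pool.Agent.H85.Strict

variable {q : I}

/-- Open crossings of the four sides of the annulus with radii `s < r` around `z`. -/
def CircE (ω : Config) (z : Vert) (s r : ℕ) : Prop :=
  (HCross ω (z.1 - r) (z.1 + r) (z.2 + s) (z.2 + r) ∧
    HCross ω (z.1 - r) (z.1 + r) (z.2 - r) (z.2 - s)) ∧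
  (VCross ω (z.1 + s) (z.1 + r) (z.2 - r) (z.2 + r) ∧
    VCross ω (z.1 - r) (z.1 - s) (z.2 - r) (z.2 + r))

/-- All crossings of the annulus meet the circuit, and the circuit is connected.  The vertex `k` is
on the right side. -/
theorem circ_join {ω : Config} {z : Vert} {s r : ℕ} (hsr : s ≤ r) (h : CircE ω z s r) :
    ∃ k : Vert, k ∈ ball z r ∧
      (∀ w u : Vert, w ∈ ball z s → (u ∉ ball z r ∨ u ∈ sphere z r) → Conn ω Set.univ w u →
        Conn ω Set.univ k w) ∧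
      (∀ u v : Vert, u.1 ≤ z.1 + s → z.1 + r ≤ v.1 →
        Conn ω {w | z.2 - r ≤ w.2 ∧ w.2 ≤ z.2 + r} u v → Conn ω Set.univ k u) ∧
      (∀ u v : Vert, u.1 ≤ z.1 - r → z.1 - s ≤ v.1 →
        Conn ω {w | z.2 - r ≤ w.2 ∧ w.2 ≤ z.2 + r} u v → Conn ω Set.univ k u) := by
  have hsr' : (s : ℤ) ≤ r := by exact_mod_cast hsr
  obtain ⟨⟨⟨tu, tv, htu, htv, T⟩, ⟨bu, bv, hbu, hbv, B⟩⟩,
    ⟨⟨ru, rv, hru, hrv, R⟩, ⟨lu, lv, hlu, hlv, L⟩⟩⟩ := h
  have hs : ∀ S : Set Vert, ∀ a b : Vert, Conn ω S a b → Conn ω Set.univ a b :=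
    fun S a b h => h.mono_set (Set.subset_univ _)
  have tR : Conn ω Set.univ tu ru := by
    obtain ⟨p, h1, h2⟩ := hv_meet T (by omega) (by omega) R (by omega) (by omega) (by omega)
      (by omega)
    exact (hs _ _ _ h1).trans (hs _ _ _ h2).symm
  have tL : Conn ω Set.univ tu lu := by
    obtain ⟨p, h1, h2⟩ := hv_meet T (by omega) (by omega) L (by omega) (by omega) (by omega)
      (by omega)
    exact (hs _ _ _ h1).trans (hs _ _ _ h2).symm
  have bR : Conn ω Set.univ bu ru := by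
    obtain ⟨p, h1, h2⟩ := hv_meet B (by omega) (by omega) R (by omega) (by omega) (by omega)
      (by omega)
    exact (hs _ _ _ h1).trans (hs _ _ _ h2).symm
  have tB : Conn ω Set.univ tu bu := tR.trans bR.symm
  refine ⟨tu, ?_, ?_, ?_, ?_⟩
  · have := T.mem_left
    simp only [rect, Set.mem_ofPred_eq] at this
    rw [mem_ball]
    omega
  · intro w u hw hu hwu
    have hw' : w ∈ ball z r := by
      rw [mem_ball] at hw ⊢
      omega
    obtain ⟨x, hx, hwx⟩ := hwu.to_sphere hw' hu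
    have hwx' : Conn ω (rect (z.1 - r) (z.1 + r) (z.2 - r) (z.2 + r)) w x :=
      hwx.mono_set Set.inter_subset_right
    rw [mem_ball] at hw
    have hb := hx.1
    rw [mem_ball] at hb
    rcases hx.2 with h1 | h1 | h1 | h1
    · obtain ⟨p, h2, h3⟩ := hv_meet hwx'.symm (by omega) (by omega) L (by omega) (by omega)
        (by omega) (by omega)
      exact tL.trans ((hs _ _ _ h3).trans ((hs _ _ _ h2).symm.trans (hs _ _ _ hwx'.symm)))
    · obtain ⟨p, h2, h3⟩ := hv_meet hwx' (by omega) (by omega) R (by omega) (by omega)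
        (by omega) (by omega)
      exact tR.trans ((hs _ _ _ h3).trans (hs _ _ _ h2).symm)
    · obtain ⟨p, h2, h3⟩ := hv_meet B (by omega) (by omega) hwx'.symm (by omega) (by omega)
        (by omega) (by omega)
      exact tB.trans ((hs _ _ _ h2).trans ((hs _ _ _ h3).symm.trans (hs _ _ _ hwx'.symm)))
    · obtain ⟨p, h2, h3⟩ := hv_meet T (by omega) (by omega) hwx' (by omega) (by omega)
        (by omega) (by omega)
      exact (hs _ _ _ h2).trans (hs _ _ _ h3).symm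
  · intro u v hu hv huv
    obtain ⟨u', v', hu', hv', h1, h2, -⟩ := huv.cross_x hu hv (by omega)
    have h3 : Conn ω (rect (z.1 + s) (z.1 + r) (z.2 - r) (z.2 + r)) u' v' := by
      refine h1.mono_set ?_
      intro w hw
      simp only [rect, Set.mem_inter_iff, Set.mem_ofPred_eq] at hw ⊢
      omega
    obtain ⟨p, h4, h5⟩ := hv_meet h3 (by omega) (by omega) R (by omega) (by omega)
      (by omega) (by omega)
    exact tR.trans ((hs _ _ _ h5).trans ((hs _ _ _ h4).symm.trans (hs _ _ _ h2).symm))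
  · intro u v hu hv huv
    obtain ⟨u', v', hu', hv', h1, h2, -⟩ := huv.cross_x hu hv (by omega)
    have h3 : Conn ω (rect (z.1 - r) (z.1 - s) (z.2 - r) (z.2 + r)) u' v' := by
      refine h1.mono_set ?_
      intro w hw
      simp only [rect, Set.mem_inter_iff, Set.mem_ofPred_eq] at hw ⊢
      omega
    obtain ⟨p, h4, h5⟩ := hv_meet h3 (by omega) (by omega) L (by omega) (by omega)
      (by omega) (by omega)
    exact tL.trans ((hs _ _ _ h5).trans ((hs _ _ _ h4).symm.trans (hs _ _ _ h2).symm))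

/-! ### Probabilities of crossings -/

/-- Crossings in the box-crossing regime. -/
theorem reg_hcross {c : ℝ} {N m : ℕ} (h : RSWreg c N q) (h1 : 1 ≤ m) (h2 : m ≤ N) {x y z t : ℤ}
    (hxy : x ≤ y) (h3 : y - x ≤ 4 * m) (h4 : m ≤ t - z) :
    c ≤ Pr q {ω | HCross ω x y z t} := by
  have k1 := (h m h1 h2).1
  have k2 := Pr_hcross_translate (p := q) (a := 0) (b := 4 * (m : ℤ)) (c := 0) (d := m) x z
  rw [← k2] at k1
  refine k1.trans (Pr_mono fun ω hω => ?_)
  exact HCross.mono hω (by omega) hxy (by omega) (by omega) (by omega)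

theorem reg_vcross {c : ℝ} {N m : ℕ} (h : RSWreg c N q) (h1 : 1 ≤ m) (h2 : m ≤ N) {x y z t : ℤ}
    (hzt : z ≤ t) (h3 : t - z ≤ 4 * m) (h4 : m ≤ y - x) :
    c ≤ Pr q {ω | VCross ω x y z t} := by
  rw [Pr_vcross_eq_hcross]
  exact reg_hcross h h1 h2 hzt h3 h4

theorem modE_injOn {N : ℕ} {a b c d : ℤ} (h1 : b - a < N) (h2 : d - c < N) :
    Set.InjOn (modE N) (eRect a b c d) := by
  have key : ∀ {a b x y : ℤ}, b - a < N → a ≤ x → x ≤ b → a ≤ y → y ≤ b → x % N = y % N →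
      x = y := by
    intro a b x y hab h1 h2 h3 h4 h5
    have h6 : (N : ℤ) ∣ x - y := Int.ModEq.dvd (show y ≡ x [ZMOD N] from h5.symm)
    have h7 : |x - y| < N := by
      rw [abs_lt]
      constructor <;> omega
    have h8 := Int.eq_zero_of_abs_lt_dvd h6 h7
    omega
  intro e he e' he' hee
  rw [Finset.mem_coe, mem_eRect] at he he'
  simp only [src, rect, Set.mem_ofPred_eq] at he he'
  simp only [modE, Prod.mk.injEq] at hee
  obtain ⟨x, y, g⟩ := e
  obtain ⟨x', y', g'⟩ := e'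
  simp only at he he' hee
  obtain ⟨hx, hy, hd⟩ := hee
  rw [key h1 he.1 he.2.1 he'.1 he'.2.1 hx, key h2 he.2.2.1 he.2.2.2 he'.2.2.1 he'.2.2.2 hy, hd]

/-- Local events in a rectangle of size less than `N` have the same probability in the plane and
on the torus. -/
theorem Pr_per {N : ℕ} {a b c d : ℤ} {A : Set Config} (hA : LocalOn (eRect a b c d) A)
    (h1 : b - a < N) (h2 : d - c < N) : Pr q {ω | per N ω ∈ A} = Pr q A := by
  rw [← Pr_comp hA (modE_injOn h1 h2)]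
  rfl

theorem reg_HT {c : ℝ} {N m : ℕ} (h : RSWreg c N q) (h1 : 1 ≤ m) (h2 : m ≤ N) {x y z t : ℤ}
    (hxy : x ≤ y) (h3 : y - x ≤ 4 * m) (h4 : m ≤ t - z) (h5 : y - x < N) (h6 : t - z < N) :
    c ≤ Pr q (HT N x y z t) := by
  have k : Pr q (HT N x y z t) = Pr q {ω | HCross ω x y z t} :=
    Pr_per (localOn_hcross x y z t) h5 h6
  rw [k]
  exact reg_hcross h h1 h2 hxy h3 h4

theorem reg_VT {c : ℝ} {N m : ℕ} (h : RSWreg c N q) (h1 : 1 ≤ m) (h2 : m ≤ N) {x y z t : ℤ}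
    (hzt : z ≤ t) (h3 : t - z ≤ 4 * m) (h4 : m ≤ y - x) (h5 : y - x < N) (h6 : t - z < N) :
    c ≤ Pr q (VT N x y z t) := by
  have k : Pr q (VT N x y z t) = Pr q {ω | VCross ω x y z t} :=
    Pr_per (localOn_vcross x y z t) h5 h6
  rw [k]
  exact reg_vcross h h1 h2 hzt h3 h4

theorem Pr_ArmT {N r : ℕ} (h : 2 * r < N) : Pr q (ArmT N r) = arm q r := by
  have k : Pr q (ArmT N r) = Pr q (Arm (m0 N) r) :=
    Pr_per (localOn_arm (m0 N) r) (by omega) (by omega)
  rw [k, Pr_arm]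

/-- Positive correlations, with a lower bound for the second event. -/
theorem fkg_step {s t : Finset Edge} {A B : Set Config} {x y : ℝ} (hA : LocalOn s A)
    (hB : LocalOn t B) (iA : Incr A) (iB : Incr B) (hy : 0 ≤ y) (h1 : x ≤ Pr q A)
    (h2 : y ≤ Pr q B) : x * y ≤ Pr q (A ∩ B) :=
  (mul_le_mul h1 h2 hy Pr_nonneg).trans (fkg hA hB iA iB)

/-- Circuits on the torus, together with another increasing event. -/
theorem circT {c : ℝ} (hc : 0 ≤ c) {N m : ℕ} (hR : RSWreg c N q) (h1 : 1 ≤ m) (h2 : 4 * m < N)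
    {A : Set Config} (hA : LocalOn (tEdges N) A) (iA : Incr A) {x : ℝ} (hx : x ≤ Pr q A) :
    x * c ^ 4 ≤ Pr q (A ∩ {ω | CircE (per N ω) (m0 N) m (2 * m)}) := by
  classical
  have hN : 1 ≤ N := by omega
  obtain ⟨z, hz⟩ : ∃ z, z = m0 N := ⟨_, rfl⟩
  have e2 : ((2 * m : ℕ) : ℤ) = 2 * m := by push_cast; ring
  have k1 := reg_HT hR h1 (by omega) (x := z.1 - (2 * m : ℕ)) (y := z.1 + (2 * m : ℕ))
    (z := z.2 + m) (t := z.2 + (2 * m : ℕ)) (by omega) (by omega) (by omega) (by omega) (by omega)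
  have k2 := reg_HT hR h1 (by omega) (x := z.1 - (2 * m : ℕ)) (y := z.1 + (2 * m : ℕ))
    (z := z.2 - (2 * m : ℕ)) (t := z.2 - m) (by omega) (by omega) (by omega) (by omega) (by omega)
  have k3 := reg_VT hR h1 (by omega) (x := z.1 + m) (y := z.1 + (2 * m : ℕ))
    (z := z.2 - (2 * m : ℕ)) (t := z.2 + (2 * m : ℕ)) (by omega) (by omega) (by omega) (by omega)
    (by omega)
  have k4 := reg_VT hR h1 (by omega) (x := z.1 - (2 * m : ℕ)) (y := z.1 - m)
    (z := z.2 - (2 * m : ℕ)) (t := z.2 + (2 * m : ℕ)) (by omega) (by omega) (by omega) (by omega)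
    (by omega)
  have l1 := fkg_step hA (localOn_HT hN _ _ _ _) iA (incr_HT N _ _ _ _) hc hx k1
  have l2 := fkg_step (hA.inter (localOn_HT hN _ _ _ _)) (localOn_HT hN _ _ _ _)
    (iA.inter (incr_HT N _ _ _ _)) (incr_HT N _ _ _ _) hc l1 k2
  have l3 := fkg_step ((hA.inter (localOn_HT hN _ _ _ _)).inter (localOn_HT hN _ _ _ _))
    (localOn_VT hN _ _ _ _) ((iA.inter (incr_HT N _ _ _ _)).inter (incr_HT N _ _ _ _))
    (incr_VT N _ _ _ _) hc l2 k3
  have l4 := fkg_step (((hA.inter (localOn_HT hN _ _ _ _)).inter (localOn_HT hN _ _ _ _)).inter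
    (localOn_VT hN _ _ _ _)) (localOn_VT hN _ _ _ _)
    (((iA.inter (incr_HT N _ _ _ _)).inter (incr_HT N _ _ _ _)).inter (incr_VT N _ _ _ _))
    (incr_VT N _ _ _ _) hc l3 k4
  rw [← hz]
  have e : x * c ^ 4 = x * c * c * c * c := by ring
  rw [e]
  refine l4.trans (Pr_mono ?_)
  rintro ω ⟨⟨⟨⟨h0, h1⟩, h2⟩, h3⟩, h4⟩
  exact ⟨h0, ⟨h1, h2⟩, h3, h4⟩

end Pool.Agent.H61.NC
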