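import Pool.Agent.H90.NC.Circ

/-!
# Extension of one-arm events in the box-crossing regime
-/

open MeasureTheory ProbabilityTheory unitInterval

namespace Pool.Agent.H61.NC

open Pool.Agent.H89.Perc Pool.Agent.H85.Strict

variable {q : I}

/-! ### Finite energy -/

/-- The first `n` edges of the positive axis are open. -/
def lineE (n : ℕ) : Set Config := {ω | ∀ i : ℕ, i < n → ω ((i : ℤ), 0, false) = true}

theorem incr_lineE (n : ℕ) : Incr (lineE n) := fun _ _ h hω i hi => h _ (hω i hi)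

theorem localOn_lineE (n : ℕ) : LocalOn (eRect 0 n 0 0) (lineE n) := by
  intro ω ω' h hω i hi
  rw [← h _ (mem_eRect.2 ?_)]
  · exact hω i hi
  · simp only [src, rect, Set.mem_ofPred_eq]
    omega

theorem Pr_open_ge (e : Edge) : (q : ℝ) ≤ Pr q {ω | ω e = true} := by
  classical
  have hloc : LocalOn {e} {ω : Config | ω e = true} := by
    intro ω ω' h hA
    have : ω e = ω' e := h e (by simp)
    simp only [Set.mem_ofPred_eq] at hA ⊢
    rw [← this]
    exact hA
  rw [Pr_eq_update hloc e]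
  have h1 : {ω : Config | Function.update ω e true ∈ {ω : Config | ω e = true}} = Set.univ := by
    ext ω
    simp
  rw [h1, Pr_univ]
  have h3 : 0 ≤ Pr q {ω : Config | Function.update ω e false ∈ {ω : Config | ω e = true}} :=
    Pr_nonneg
  have h4 : 0 ≤ 1 - (q : ℝ) := by linarith [q.2.2]
  nlinarith [mul_nonneg h4 h3]

theorem Pr_lineE (n : ℕ) : (q : ℝ) ^ n ≤ Pr q (lineE n) := by
  classical
  induction n with
  | zero =>
    have : lineE 0 = Set.univ := by
      ext ω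
      simp [lineE]
    rw [this, Pr_univ, pow_zero]
  | succ n ih =>
    have hloc : LocalOn {((n : ℤ), 0, false)} {ω : Config | ω ((n : ℤ), 0, false) = true} := by
      intro ω ω' h hA
      have : ω ((n : ℤ), 0, false) = ω' ((n : ℤ), 0, false) := h _ (by simp)
      simp only [Set.mem_ofPred_eq] at hA ⊢
      rw [← this]
      exact hA
    have h1 := fkg_step (localOn_lineE n) hloc (incr_lineE n)
      (fun ω ω' h hω => h _ hω) q.2.1 ih (Pr_open_ge _)
    rw [pow_succ]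
    refine h1.trans (Pr_mono ?_)
    rintro ω ⟨h2, h3⟩ i hi
    rcases Nat.lt_succ_iff_lt_or_eq.1 hi with h4 | h4
    · exact h2 i h4
    · subst h4
      exact h3

theorem lineE_arm (n : ℕ) : lineE n ⊆ Arm 0 n := by
  intro ω hω
  have key : ∀ j : ℕ, j ≤ n → Conn ω Set.univ 0 ((j : ℤ), 0) := by
    intro j
    induction j with
    | zero => exact fun _ => Conn.refl (Set.mem_univ _)
    | succ j ih =>
      intro hj
      refine (ih (by omega)).tail ⟨Set.mem_univ _, Set.mem_univ _, ((j : ℤ), 0, false), ?_,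
        hω j (by omega)⟩
      left
      simp [src, tgt]
  refine (key n le_rfl).mem_arm (Or.inl ?_)
  simp

/-- Finite energy bound for the one-arm probability. -/
theorem arm_ge_pow (h : 1 / 4 ≤ (q : ℝ)) {n k : ℕ} (hn : n ≤ k) : (1 / 4 : ℝ) ^ k ≤ arm q n := by
  calc (1 / 4 : ℝ) ^ k ≤ (1 / 4 : ℝ) ^ n :=
        pow_le_pow_of_le_one (by norm_num) (by norm_num) hn
    _ ≤ (q : ℝ) ^ n := pow_le_pow_left₀ (by norm_num) h n
    _ ≤ Pr q (lineE n) := Pr_lineE n
    _ ≤ arm q n := Pr_mono (lineE_arm n)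

/-! ### One step of the extension -/

theorem arm_step_det {ω : Config} {m : ℕ} (h1 : ω ∈ Arm 0 (2 * m)) (h2 : CircE ω 0 m (2 * m))
    (h3 : HCross ω 0 (4 * m) 0 m) : ω ∈ Arm 0 (4 * m) := by
  obtain ⟨k, -, j1, j2, -⟩ := circ_join (by omega) h2
  obtain ⟨u, hu, hc⟩ := h1
  obtain ⟨x, y, hx, hy, hxy⟩ := h3
  have g1 := j1 0 u self_mem_ball (Or.inr hu) (hc.mono_set (Set.subset_univ _))
  have g2 := j2 x y (by simp only [Prod.fst_zero]; omega)
    (by simp only [Prod.fst_zero]; push_cast; omega) (hxy.mono_set (by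
      intro w hw
      simp only [rect, Set.mem_ofPred_eq] at hw
      simp only [Set.mem_ofPred_eq, Prod.snd_zero]
      push_cast
      omega))
  have g3 : Conn ω Set.univ 0 y :=
    (g1.symm.trans g2).trans (hxy.mono_set (Set.subset_univ _))
  refine g3.mem_arm (Or.inl ?_)
  rw [hy]
  simp only [Prod.fst_zero, sub_zero]
  push_cast
  exact le_abs_self _

theorem arm_step {c : ℝ} (hc : 0 ≤ c) {N m : ℕ} (hR : RSWreg c N q) (h1 : 1 ≤ m) (h2 : m ≤ N) :
    arm q (2 * m) * c ^ 5 ≤ arm q (4 * m) := by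
  classical
  have k1 := reg_hcross hR h1 h2 (x := (0 : Vert).1 - (2 * m : ℕ))
    (y := (0 : Vert).1 + (2 * m : ℕ)) (z := (0 : Vert).2 + m) (t := (0 : Vert).2 + (2 * m : ℕ))
    (by omega) (by omega) (by omega)
  have k2 := reg_hcross hR h1 h2 (x := (0 : Vert).1 - (2 * m : ℕ))
    (y := (0 : Vert).1 + (2 * m : ℕ)) (z := (0 : Vert).2 - (2 * m : ℕ)) (t := (0 : Vert).2 - m)
    (by omega) (by omega) (by omega)
  have k3 := reg_vcross hR h1 h2 (x := (0 : Vert).1 + m) (y := (0 : Vert).1 + (2 * m : ℕ))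
    (z := (0 : Vert).2 - (2 * m : ℕ)) (t := (0 : Vert).2 + (2 * m : ℕ))
    (by omega) (by omega) (by omega)
  have k4 := reg_vcross hR h1 h2 (x := (0 : Vert).1 - (2 * m : ℕ)) (y := (0 : Vert).1 - m)
    (z := (0 : Vert).2 - (2 * m : ℕ)) (t := (0 : Vert).2 + (2 * m : ℕ))
    (by omega) (by omega) (by omega)
  have k5 := (hR m h1 h2).1
  have l0 : arm q (2 * m) ≤ Pr q (Arm 0 (2 * m)) := le_rfl
  have l1 := fkg_step (localOn_arm 0 (2 * m)) (localOn_hcross _ _ _ _) (incr_arm _ _)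
    (incr_hcross _ _ _ _) hc l0 k1
  have l2 := fkg_step ((localOn_arm 0 (2 * m)).inter' (localOn_hcross _ _ _ _))
    (localOn_hcross _ _ _ _) ((incr_arm _ _).inter (incr_hcross _ _ _ _))
    (incr_hcross _ _ _ _) hc l1 k2
  have l3 := fkg_step (((localOn_arm 0 (2 * m)).inter' (localOn_hcross _ _ _ _)).inter'
    (localOn_hcross _ _ _ _)) (localOn_vcross _ _ _ _)
    (((incr_arm _ _).inter (incr_hcross _ _ _ _)).inter (incr_hcross _ _ _ _))
    (incr_vcross _ _ _ _) hc l2 k3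
  have l4 := fkg_step ((((localOn_arm 0 (2 * m)).inter' (localOn_hcross _ _ _ _)).inter'
    (localOn_hcross _ _ _ _)).inter' (localOn_vcross _ _ _ _)) (localOn_vcross _ _ _ _)
    ((((incr_arm _ _).inter (incr_hcross _ _ _ _)).inter (incr_hcross _ _ _ _)).inter
      (incr_vcross _ _ _ _)) (incr_vcross _ _ _ _) hc l3 k4
  have l5 := fkg_step (((((localOn_arm 0 (2 * m)).inter' (localOn_hcross _ _ _ _)).inter'
    (localOn_hcross _ _ _ _)).inter' (localOn_vcross _ _ _ _)).inter' (localOn_vcross _ _ _ _))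
    (localOn_hcross _ _ _ _)
    (((((incr_arm _ _).inter (incr_hcross _ _ _ _)).inter (incr_hcross _ _ _ _)).inter
      (incr_vcross _ _ _ _)).inter (incr_vcross _ _ _ _)) (incr_hcross _ _ _ _) hc l4 k5
  have e : arm q (2 * m) * c ^ 5 = arm q (2 * m) * c * c * c * c * c := by ring
  rw [e]
  refine l5.trans (Pr_mono ?_)
  rintro ω ⟨⟨⟨⟨⟨h0, h1⟩, h2⟩, h3⟩, h4⟩, h5⟩
  exact arm_step_det h0 ⟨⟨h1, h2⟩, h3, h4⟩ h5

theorem reg_le_one {c : ℝ} {N : ℕ} (hR : RSWreg c N q) (hN : 1 ≤ N) : c ≤ 1 :=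
  (hR 1 le_rfl hN).1.trans Pr_le_one

/-- Iteration of the step. -/
theorem arm_iter {c : ℝ} (hc : 0 < c) {N : ℕ} (hN : 1 ≤ N) (hR : RSWreg c N q) (j : ℕ) :
    ∀ r R : ℕ, 4 ≤ r → 2 ^ j * R ≤ 3 ^ j * r → R ≤ N → arm q r * c ^ (5 * j) ≤ arm q R := by
  have hc1 := reg_le_one hR hN
  have hpow : ∀ k : ℕ, c ^ k ≤ 1 := fun k => pow_le_one₀ hc.le hc1
  have htriv : ∀ r R k : ℕ, R ≤ r → arm q r * c ^ k ≤ arm q R := by
    intro r R k h
    calc arm q r * c ^ k ≤ arm q r * 1 := mul_le_mul_of_nonneg_left (hpow k) arm_nonneg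
      _ = arm q r := mul_one _
      _ ≤ arm q R := arm_antitone h
  induction j with
  | zero =>
    intro r R _ h _
    simp only [pow_zero, one_mul] at h
    exact htriv r R _ h
  | succ j ih =>
    intro r R hr h hRN
    by_cases hrR : R ≤ r
    · exact htriv r R _ hrR
    push Not at hrR
    have h1 : 2 ^ j * R ≤ 3 ^ j * (4 * (r / 2)) := by
      have h2 : 3 * r ≤ 2 * (4 * (r / 2)) := by omega
      have h3 : 3 ^ j * (3 * r) ≤ 3 ^ j * (2 * (4 * (r / 2))) := Nat.mul_le_mul_left _ h2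
      have h4 : 2 * (2 ^ j * R) ≤ 2 * (3 ^ j * (4 * (r / 2))) := by
        calc 2 * (2 ^ j * R) = 2 ^ (j + 1) * R := by ring
          _ ≤ 3 ^ (j + 1) * r := h
          _ = 3 ^ j * (3 * r) := by ring
          _ ≤ 3 ^ j * (2 * (4 * (r / 2))) := h3
          _ = 2 * (3 ^ j * (4 * (r / 2))) := by ring
      omega
    have h2 := ih (4 * (r / 2)) R (by omega) h1 hRN
    have h3 := arm_step hc.le hR (by omega : 1 ≤ r / 2) (by omega)
    have h4 : arm q r ≤ arm q (2 * (r / 2)) := arm_antitone (by omega)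
    have h5 : 0 ≤ c ^ 5 := by positivity
    have h6 : 0 ≤ c ^ (5 * j) := by positivity
    calc arm q r * c ^ (5 * (j + 1)) = (arm q r * c ^ 5) * c ^ (5 * j) := by
          rw [mul_add, pow_add, mul_one]; ring
      _ ≤ (arm q (2 * (r / 2)) * c ^ 5) * c ^ (5 * j) := by gcongr
      _ ≤ arm q (4 * (r / 2)) * c ^ (5 * j) := by gcongr
      _ ≤ arm q R := h2

/-- Extendability of one arm in the box-crossing regime. -/
theorem arm_ext_reg : ∀ c : ℝ, 0 < c → ∀ k : ℕ, ∃ C : ℝ, 0 < C ∧ ∀ (N : ℕ) (q : I) (r R : ℕ),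
    RSWreg c N q → 1 / 4 ≤ (q : ℝ) → 1 ≤ r → R ≤ k * r → R ≤ N → arm q r ≤ C * arm q R := by
  intro c hc k
  obtain ⟨j, hj⟩ : ∃ j : ℕ, (k : ℝ) < (3 / 2 : ℝ) ^ j := pow_unbounded_of_one_lt _ (by norm_num)
  refine ⟨c⁻¹ ^ (5 * j) + 4 ^ (4 * k), by positivity, ?_⟩
  intro N q r R hR hq hr hRk hRN
  have ha : 0 ≤ arm q R := arm_nonneg
  have hci : 0 ≤ c⁻¹ ^ (5 * j) := by positivity
  by_cases hN : N = 0
  · have hR0 : R = 0 := by omega
    rw [hR0, arm_zero, mul_one]
    have h1 : (1 : ℝ) ≤ 4 ^ (4 * k) := one_le_pow₀ (by norm_num)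
    linarith [arm_le_one (p := q) (r := r)]
  by_cases hr4 : r < 4
  · have h1 : R ≤ 4 * k := by nlinarith
    have h2 := arm_ge_pow hq h1
    have h3 : 1 ≤ 4 ^ (4 * k) * arm q R := by
      calc (1 : ℝ) = 4 ^ (4 * k) * (1 / 4 : ℝ) ^ (4 * k) := by
            rw [← mul_pow]; norm_num
        _ ≤ _ := mul_le_mul_of_nonneg_left h2 (by positivity)
    have h4 := arm_le_one (p := q) (r := r)
    have h5 := mul_nonneg hci ha
    rw [add_mul]
    linarith
  · push Not at hr4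
    have h1 : 2 ^ j * R ≤ 3 ^ j * r := by
      have h2 : (R : ℝ) ≤ (3 / 2 : ℝ) ^ j * r := by
        calc (R : ℝ) ≤ k * r := by exact_mod_cast hRk
          _ ≤ _ := mul_le_mul_of_nonneg_right hj.le (Nat.cast_nonneg r)
      have h3 : (2 : ℝ) ^ j * R ≤ 3 ^ j * r := by
        calc (2 : ℝ) ^ j * R ≤ 2 ^ j * ((3 / 2 : ℝ) ^ j * r) :=
              mul_le_mul_of_nonneg_left h2 (by positivity)
          _ = (2 * (3 / 2)) ^ j * r := by rw [mul_pow]; ring
          _ = 3 ^ j * r := by norm_num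
      exact_mod_cast h3
    have h2 := arm_iter hc (by omega : 1 ≤ N) hR j r R hr4 h1 hRN
    have h3 : arm q r ≤ c⁻¹ ^ (5 * j) * arm q R := by
      rw [inv_pow, ← div_eq_inv_mul, le_div_iff₀ (by positivity)]
      exact h2
    have h4 : 0 ≤ 4 ^ (4 * k) * arm q R := by positivity
    rw [add_mul]
    linarith

end Pool.Agent.H61.NC
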