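import Pool.Agent.H90.NC.ArmDet
import Pool.Agent.H90.NC.ArmExt

/-!
# Gluing of the arm of the middle vertex and the outer event
-/

open MeasureTheory ProbabilityTheory unitInterval

namespace Pool.Agent.H61.NC

open Pool.Agent.H89.Perc

variable {q : I}

private lemma armGlue_shift {N : ℕ} (ω : Config) (a b : ℤ) {u v : Vert}
    (h : Conn (per N ω) Set.univ u v) :
    Conn (per N ω) Set.univ (u.1 + a * N, u.2 + b * N) (v.1 + a * N, v.2 + b * N) := by
  have h1 := conn_shift (ω := per N ω) (a * N, b * N) Set.univ u v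
  have h2 : (fun e => per N ω (shiftE (a * N, b * N) e)) = per N ω := by
    funext e
    simp only [per, shiftE]
    rw [Int.add_mul_emod_self_right, Int.add_mul_emod_self_right]
  rw [h2] at h1
  exact (h1.1 h).mono_set (Set.subset_univ _)

/-- A path which leaves the neighbourhood of a translate of the middle vertex is joined to this
translate. -/
private lemma armGlue_join {N m : ℕ} {ω : Config} (hA : ω ∈ ArmT N (2 * m))
    (hC : CircE (per N ω) (m0 N) m (2 * m)) (a b : ℤ) {w u : Vert}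
    (hw : w ∈ ball ((m0 N).1 + a * N, (m0 N).2 + b * N) m)
    (hu : u ∉ ball ((m0 N).1 + a * N, (m0 N).2 + b * N) (2 * m))
    (h : Conn (per N ω) Set.univ w u) :
    Conn (per N ω) Set.univ ((m0 N).1 + a * N, (m0 N).2 + b * N) w := by
  obtain ⟨k, -, j1, -, -⟩ := circ_join (by omega) hC
  obtain ⟨x, hx, hc⟩ := hA
  have g1 := j1 (m0 N) x self_mem_ball (Or.inr hx) (hc.mono_set (Set.subset_univ _))
  have h1 := armGlue_shift ω (-a) (-b) h
  have g2 := j1 _ _ (by
    rw [mem_ball] at hw ⊢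
    simp only at hw ⊢
    rw [neg_mul, neg_mul]
    omega) (Or.inl (by
    rw [mem_ball] at hu ⊢
    simp only at hu ⊢
    rw [neg_mul, neg_mul]
    omega)) h1
  have g3 := armGlue_shift ω a b (g1.symm.trans g2)
  have e1 : ((w.1 + -a * N + a * N, w.2 + -b * N + b * N) : Vert) = w := by
    ext <;> (simp only; ring)
  simp only at g3
  rw [e1] at g3
  exact g3

/-- Two different translates of the neighbourhood of the middle vertex are far from each other. -/
private lemma armGlue_far {N m : ℕ} (hN : 4 * m < N) {z : Vert} {a b a' b' : ℤ} {v : Vert}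
    (hne : ¬ (a = a' ∧ b = b')) (hv : v ∈ ball (z.1 + a' * N, z.2 + b' * N) m) :
    v ∉ ball (z.1 + a * N, z.2 + b * N) (2 * m) := by
  intro hv'
  rw [mem_ball] at hv hv'
  simp only at hv hv'
  push_cast at hv'
  have key : ∀ c c' x y : ℤ, y + c' * N - m ≤ x → x ≤ y + c' * N + m →
      y + c * N - 2 * m ≤ x → x ≤ y + c * N + 2 * m → c = c' := by
    intro c c' x y h1 h2 h3 h4
    by_contra h0
    rcases lt_or_gt_of_ne h0 with h | h
    · have h5 : (c + 1) * N ≤ c' * N := mul_le_mul_of_nonneg_right (by omega) (by omega)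
      rw [add_mul, one_mul] at h5
      omega
    · have h5 : (c' + 1) * N ≤ c * N := mul_le_mul_of_nonneg_right (by omega) (by omega)
      rw [add_mul, one_mul] at h5
      omega
  exact hne ⟨key a a' v.1 z.1 hv.1 hv.2.1 hv'.1 hv'.2.1,
    key b b' v.2 z.2 hv.2.2.1 hv.2.2.2 hv'.2.2.1 hv'.2.2.2⟩

theorem armGlue_det {N m R : ℕ} (hN : 4 * m < N) (hR : R + 1 ≤ m) {ω : Config}
    (hA : ω ∈ ArmT N (2 * m)) (hC : CircE (per N ω) (m0 N) m (2 * m)) (hO : ω ∈ OutArm N R) :
    ω ∈ W0 N := by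
  classical
  obtain ⟨a', b', ha', h⟩ := hO
  have hmain : ∃ a b : ℤ, Conn (per N ω) Set.univ (m0 N) ((m0 N).1 + a * N, (m0 N).2 + b * N) ∧
      ∃ w ∈ ball ((m0 N).1 + a * N, (m0 N).2 + b * N) m,
        Conn (per N ω) Set.univ w ((m0 N).1 + a' * N, (m0 N).2 + b' * N) := by
    refine h.induction_right (P := fun v => ∃ a b : ℤ,
      Conn (per N ω) Set.univ (m0 N) ((m0 N).1 + a * N, (m0 N).2 + b * N) ∧
      ∃ w ∈ ball ((m0 N).1 + a * N, (m0 N).2 + b * N) m, Conn (per N ω) Set.univ w v) ?_ ?_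
    · refine ⟨0, 0, ?_, m0 N, ?_, Conn.refl (Set.mem_univ _)⟩
      · simp only [zero_mul, add_zero]
        exact Conn.refl (Set.mem_univ _)
      · simp only [zero_mul, add_zero]
        exact self_mem_ball
    · rintro v v' _ ⟨-, -, f, hf, hfo⟩ ⟨a, b, h1, w, hw, h2⟩
      by_cases hfω : per N ω f = true
      · exact ⟨a, b, h1, w, hw, h2.tail ⟨Set.mem_univ _, Set.mem_univ _, f, hf, hfω⟩⟩
      · -- the edge is a translate of an edge of the block
        have hfb : (f.1 % N, f.2.1 % N, f.2.2) ∈ blk N R := by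
          by_contra hno
          apply hfω
          unfold per at hfo ⊢
          unfold fill at hfo
          simpa only [hno, if_false] using hfo
        obtain ⟨c, hc⟩ : ∃ c, c = f.1 / N := ⟨_, rfl⟩
        obtain ⟨d, hd⟩ : ∃ d, d = f.2.1 / N := ⟨_, rfl⟩
        have e1 := Int.emod_add_ediv_mul f.1 N
        have e2 := Int.emod_add_ediv_mul f.2.1 N
        rw [← hc] at e1
        rw [← hd] at e2
        unfold blk at hfb
        rw [mem_eRect] at hfb
        simp only [src, rect, Set.mem_ofPred_eq] at hfb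
        have hsrc : src f ∈ ball ((m0 N).1 + c * N, (m0 N).2 + d * N) m := by
          rw [mem_ball]
          simp only [src, m0]
          omega
        have htgt : tgt f ∈ ball ((m0 N).1 + c * N, (m0 N).2 + d * N) m := by
          rw [mem_ball]
          obtain ⟨x, y, g⟩ := f
          cases g
          · simp only [tgt, m0, Bool.false_eq_true, if_false] at e1 e2 hfb ⊢
            omega
          · simp only [tgt, m0, if_true] at e1 e2 hfb ⊢
            omega
        have hv : v ∈ ball ((m0 N).1 + c * N, (m0 N).2 + d * N) m ∧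
            v' ∈ ball ((m0 N).1 + c * N, (m0 N).2 + d * N) m := by
          rcases hf with ⟨g1, g2⟩ | ⟨g1, g2⟩
          · rw [g1, g2]; exact ⟨hsrc, htgt⟩
          · rw [g1, g2]; exact ⟨htgt, hsrc⟩
        by_cases hcd : a = c ∧ b = d
        · obtain ⟨rfl, rfl⟩ := hcd
          exact ⟨a, b, h1, v', hv.2, Conn.refl (Set.mem_univ _)⟩
        · have hcd' : ¬ (c = a ∧ d = b) := fun hh => hcd ⟨hh.1.symm, hh.2.symm⟩
          have k1 := armGlue_join hA hC a b hw (armGlue_far hN hcd hv.1) h2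
          have k2 := armGlue_join hA hC c d hv.1 (armGlue_far hN hcd' hw) h2.symm
          exact ⟨c, d, ((h1.trans k1).trans h2).trans k2.symm, v', hv.2,
            Conn.refl (Set.mem_univ _)⟩
  obtain ⟨a, b, h1, w, hw, h2⟩ := hmain
  by_cases hab : a = a' ∧ b = b'
  · obtain ⟨rfl, rfl⟩ := hab
    exact ⟨a, b, ha', h1⟩
  · have k1 := armGlue_join hA hC a b hw (armGlue_far hN hab self_mem_ball) h2
    exact ⟨a', b', ha', (h1.trans k1).trans h2⟩

/-- Gluing. -/
theorem armGlue {c : ℝ} (hc : 0 ≤ c) {N m R : ℕ} (hReg : RSWreg c N q) (h1 : 4 * m < N)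
    (hR : R + 1 ≤ m) : arm q (2 * m) * Pr q (OutArm N R) * c ^ 4 ≤ Pr q (W0 N) := by
  classical
  have hN : 1 ≤ N := by omega
  have k1 : arm q (2 * m) ≤ Pr q (ArmT N (2 * m)) := le_of_eq (Pr_ArmT (by omega)).symm
  have k2 := fkg_step (localOn_ArmT hN (2 * m)) ((localOn_OutArm hN R).mono Finset.sdiff_subset)
    (incr_ArmT N (2 * m)) (incr_OutArm N R) Pr_nonneg k1 le_rfl
  have k3 := circT hc hReg (by omega : 1 ≤ m) h1
    ((localOn_ArmT hN (2 * m)).inter ((localOn_OutArm hN R).mono Finset.sdiff_subset))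
    ((incr_ArmT N (2 * m)).inter (incr_OutArm N R)) k2
  refine k3.trans (Pr_mono ?_)
  rintro ω ⟨⟨g1, g2⟩, g3⟩
  exact armGlue_det h1 hR g1 g3 g2

/-- Lower bound for the probability of `W0`. -/
theorem W0_lower_det {N m : ℕ} (hN : 4 * m < N) {ω : Config}
    (hA : ω ∈ ArmT N (2 * m)) (hC : CircE (per N ω) (m0 N) m (2 * m))
    (hH : ω ∈ HT N ((m0 N).1 + m) ((m0 N).1 + N - m) ((m0 N).2) ((m0 N).2 + 2 * m)) :
    ω ∈ W0 N := by
  obtain ⟨k, -, j1, j2, j3⟩ := circ_join (by omega) hC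
  obtain ⟨x, hx, hc⟩ := hA
  have g1 := j1 (m0 N) x self_mem_ball (Or.inr hx) (hc.mono_set (Set.subset_univ _))
  obtain ⟨u, v, hu, hv, huv⟩ := hH
  -- the right side of the circuit
  have g2 : Conn (per N ω) Set.univ k u := by
    refine j2 u v (by omega) ?_ (huv.mono_set ?_)
    · push_cast
      omega
    · intro w hw
      simp only [rect, Set.mem_ofPred_eq] at hw ⊢
      push_cast
      omega
  -- the left side of the translated circuit
  have g3 : Conn (per N ω) Set.univ k (u.1 + -1 * N, u.2 + 0 * N) := by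
    have h1 : Conn (per N ω) {w | (m0 N).2 - (2 * m : ℕ) ≤ w.2 ∧ w.2 ≤ (m0 N).2 + (2 * m : ℕ)}
        (u.1 + -1 * N, u.2 + 0 * N) (v.1 + -1 * N, v.2 + 0 * N) := by
      have h2 := conn_shift (ω := per N ω) (-1 * N, 0 * N)
        (rect ((m0 N).1 + m) ((m0 N).1 + N - m) ((m0 N).2) ((m0 N).2 + 2 * m)) u v
      have h3 : (fun e => per N ω (shiftE (-1 * N, 0 * N) e)) = per N ω := by
        funext e
        simp only [per, shiftE]
        rw [Int.add_mul_emod_self_right, Int.add_mul_emod_self_right]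
      rw [h3] at h2
      refine (h2.1 huv).mono_set ?_
      intro w hw
      simp only [rect, Set.mem_ofPred_eq] at hw ⊢
      push_cast
      omega
    refine j3 _ _ ?_ ?_ h1
    · simp only
      push_cast
      omega
    · simp only
      omega
  have g4 := armGlue_shift ω 1 0 (g1.symm.trans g3)
  have e1 : ((u.1 + -1 * N + 1 * N, u.2 + 0 * N + 0 * N) : Vert) = u := by
    ext <;> (simp only; ring)
  simp only at g4
  rw [e1] at g4
  exact ⟨1, 0, one_ne_zero, (g1.symm.trans g2).trans g4.symm⟩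

theorem W0_lower {c : ℝ} (hc : 0 ≤ c) {N m : ℕ} (hReg : RSWreg c N q) (h0 : 2 ≤ m)
    (h1 : 4 * m < N) (h2 : N ≤ 8 * m) : arm q (2 * m) * c ^ 5 ≤ Pr q (W0 N) := by
  classical
  have hN : 1 ≤ N := by omega
  have k1 : arm q (2 * m) ≤ Pr q (ArmT N (2 * m)) := le_of_eq (Pr_ArmT (by omega)).symm
  have k2 := reg_HT hReg (by omega : 1 ≤ 2 * m) (by omega) (x := (m0 N).1 + m)
    (y := (m0 N).1 + N - m) (z := (m0 N).2) (t := (m0 N).2 + 2 * m) (by omega)
    (by push_cast; omega) (by push_cast; omega) (by omega) (by omega)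
  have k3 := fkg_step (localOn_ArmT hN (2 * m)) (localOn_HT hN _ _ _ _)
    (incr_ArmT N (2 * m)) (incr_HT N _ _ _ _) hc k1 k2
  have k4 := circT hc hReg (by omega : 1 ≤ m) h1
    ((localOn_ArmT hN (2 * m)).inter (localOn_HT hN _ _ _ _))
    ((incr_ArmT N (2 * m)).inter (incr_HT N _ _ _ _)) k3
  have e : arm q (2 * m) * c ^ 5 = arm q (2 * m) * c * c ^ 4 := by ring
  rw [e]
  refine k4.trans (Pr_mono ?_)
  rintro ω ⟨⟨g1, g2⟩, g3⟩
  exact W0_lower_det h1 g1 g3 g2

/-- Upper bound for the probability of `W0`. -/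
theorem W0_upper {N r : ℕ} (h : 2 * r < N) : Pr q (W0 N) ≤ arm q r := by
  rw [← Pr_ArmT h]
  refine Pr_mono ?_
  rintro ω ⟨a, b, ha, hu⟩
  refine hu.mem_arm (Or.inl ?_)
  have h3 : 1 ≤ |a| := Int.one_le_abs ha
  have h4 : (m0 N).1 + a * N - (m0 N).1 = a * N := by ring
  simp only
  rw [h4, abs_mul, abs_of_nonneg (by omega : (0 : ℤ) ≤ N)]
  have h5 : (2 * r : ℤ) < N := by exact_mod_cast h
  nlinarith

end Pool.Agent.H61.NC
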